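import Pool.Agent.Y482.Ph.Defs
import Pool.Agent.Y391.CB.Chi2
import Pool.Agent.W21.AX.LOCX
import Pool.Agent.W762.AX.Lx
import Pool.Agent.W303.AX.UX1

/-! PH-CHIX: the sum over the values of the variable of the axis, with expansion (project of
helper482). -/

set_option autoImplicit false

namespace Pool.Agent.Y497.PH

open Filter Topology Metric Set MeasureTheory
open Pool.Agent.W711.HT hiding XX
open Pool.Agent.W719.AX (UX EXY ig GX)
open Pool.Agent.Y391.CB
open Pool.Agent.Y472 (wE)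
open Pool.Agent.Y482.Ph
open scoped Real Interval

/-- the exponential part of the integrand -/
noncomputable def eI (m : ℤ) (X : ℕ → ℂ → ℂ) (N : ℕ) (w : ℂ) : ℂ :=
  Complex.exp (Complex.I * N * w) * Ea (2 * m) N w * X N w

theorem eI_eq (m : ℤ) (X : ℕ → ℂ → ℂ) (G : ℂ → ℂ) (N : ℕ) (w : ℂ) :
    eI m X N w = Complex.exp (N * qq (2 * m) G w) * (Complex.exp (-(N * G w)) * X N w) := by
  have e1 : Complex.exp (N * qq (2 * m) G w) =
      Ea (2 * m) N w * Complex.exp (Complex.I * N * w) * Complex.exp (N * G w) := by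
    unfold Ea qq
    rw [← Complex.exp_add, ← Complex.exp_add]
    congr 1
    ring
  have e2 : Complex.exp (N * G w) * Complex.exp (-(N * G w)) = 1 := by
    rw [← Complex.exp_add, add_neg_cancel, Complex.exp_zero]
  unfold eI
  rw [e1]
  linear_combination (-(Complex.exp (Complex.I * N * w) * Ea (2 * m) N w * X N w)) * e2

theorem eI_norm {m : ℤ} {X : ℕ → ℂ → ℂ} {G : ℂ → ℂ} {N : ℕ} {w : ℂ} {C₀ : ℝ}
    (h : ‖Complex.exp (-(N * G w)) * X N w‖ ≤ C₀) :
    ‖eI m X N w‖ ≤ C₀ * Real.exp (N * (qq (2 * m) G w).re) := by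
  rw [eI_eq m X G, norm_mul, Complex.norm_exp]
  have : ((N : ℂ) * qq (2 * m) G w).re = N * (qq (2 * m) G w).re := by simp
  rw [this, mul_comm]
  exact mul_le_mul_of_nonneg_right h (Real.exp_pos _).le

theorem FkN (m : ℤ) (X : ℕ → ℂ → ℂ) (N : ℕ) (w : ℂ) :
    wE N m w * X N w * kN N w = pN N w * eI m X N w := by
  unfold Pool.Agent.Y472.wE kN pN eI
  ring

theorem eI_cont (m : ℤ) {X : ℕ → ℂ → ℂ} (hX : ∀ N, Differentiable ℂ (X N)) (N : ℕ) :
    Continuous (eI m X N) := by
  have h1 := (hX N).continuous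
  have h2 : Continuous (Ea (2 * m) N) := by
    unfold Ea
    fun_prop
  unfold eI
  exact ((by fun_prop : Continuous fun w : ℂ => Complex.exp (Complex.I * N * w)).mul h2).mul h1

/-- `pN` is close to `sin` -/
theorem pN_sub {N : ℕ} {w : ℂ} {h : ℝ} (hw : w.im = h) (hh : 0 < h)
    (hN : Real.exp (-(N * h)) ≤ 1 / 2) :
    ‖pN N w - Complex.sin w‖ ≤ Real.exp h * (10 * Real.exp (-(N * h))) := by
  obtain ⟨e, he⟩ : ∃ e : ℂ, e = -Complex.exp (Complex.I * N * w) := ⟨_, rfl⟩
  have k1 : ‖e‖ = Real.exp (-(N * h)) := by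
    rw [he, norm_neg, norm_e, hw]
  have k4 := Pool.Agent.W85.HT.inv_close (k1.le.trans hN)
  have k5 : ‖Complex.sin w‖ ≤ Real.exp h := by
    refine (Pool.Agent.W85.HT.norm_sin_le w).trans (Real.exp_le_exp.2 ?_)
    rw [hw, abs_of_pos hh]
  have e1 : pN N w - Complex.sin w = -(Complex.sin w * (1 - 1 / (1 + e) ^ 2)) := by
    unfold pN
    rw [he]
    ring
  rw [e1, norm_neg, norm_mul, ← k1]
  exact mul_le_mul k5 k4 (norm_nonneg _) (Real.exp_pos _).le

theorem xy_re (x y : ℝ) : ((x : ℂ) + y * Complex.I).re = x := by simp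
theorem xy_im (x y : ℝ) : ((x : ℂ) + y * Complex.I).im = y := by simp

theorem loc {R : ℝ} (hR : 0 < R) (hR1 : R ≤ 1) {X : ℕ → ℂ → ℂ} {G : ℂ → ℂ}
    (hX : ∀ N, Differentiable ℂ (X N)) (hXe : ∀ N z, X N (-z) = X N z)
    (hG : DifferentiableOn ℂ G (Rc R R)) {C₀ : ℝ} (hC₀ : 0 ≤ C₀)
    (hU : ∀ᶠ N : ℕ in atTop, ∀ w ∈ Rc R R, ‖Complex.exp (-(N * G w)) * X N w‖ ≤ C₀)
    (m : ℤ) {z : ℂ} (hz : z ∈ Rc (R / 4) (R / 4)) (hz0 : 0 < z.im) (hS : SAD (2 * m) G (R / 4) z)
    {c : ℝ} (hc : 0 < c) (hline : ∀ x : ℝ, |x| ≤ R / 3 → (qq (2 * m) G (x + z.im * Complex.I)).re ≤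
      (qq (2 * m) G z).re - c / 2 * (x - z.re) ^ 2)
    {δ : ℝ} (hδ : 0 < δ) (hδR : |z.re| + δ < R / 4) :
    ∃ κ' : ℝ, 0 < κ' ∧ ∀ᶠ N : ℕ in atTop,
      ‖2 * (∫ x in (-rN R N)..(rN R N), wE N m (x + z.im * Complex.I) *
          X N (x + z.im * Complex.I) * kN N (x + z.im * Complex.I)) -
        2 * Complex.I * (∫ y in (-z.im)..z.im, wE N m (rN R N + y * Complex.I) *
          X N (rN R N + y * Complex.I) * kN N (rN R N + y * Complex.I)) -
        ∫ x in (-δ)..δ, 2 * Complex.sin (z + x) * eI m X N (z + x)‖ ≤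
      Real.exp (N * ((qq (2 * m) G z).re - κ')) := by
  obtain ⟨V, hV⟩ : ∃ V : ℝ, V = (qq (2 * m) G z).re := ⟨_, rfl⟩
  obtain ⟨h, hh⟩ : ∃ h : ℝ, h = z.im := ⟨_, rfl⟩
  obtain ⟨r, hr⟩ : ∃ r : ℝ, r = z.re := ⟨_, rfl⟩
  have hh0 : 0 < h := by rw [hh]; exact hz0
  have hh1 : h < R / 4 := by
    rw [hh]
    exact (le_abs_self _).trans_lt hz.2
  have hopen : IsOpen (Rc R R) := Pool.Agent.W293.HT.isOpen_Rc _ _
  have hqc : ContinuousOn (qq (2 * m) G) (Rc R R) := by
    unfold qq
    exact (by fun_prop : Continuous fun w : ℂ =>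
      Complex.I * (2 * m : ℤ) * w ^ 2 / (4 * π) + Complex.I * w).continuousOn.add hG.continuousOn
  have habs : |R / 4| = R / 4 := abs_of_pos (by positivity)
  have hsideU : ∀ σ : ℝ, |σ| = R / 4 → ∀ y : ℝ, 0 ≤ y → y ≤ h →
      (σ : ℂ) + y * Complex.I ∈ Rc R R := by
    intro σ hσ y hy0 hy1
    refine ⟨?_, ?_⟩
    · rw [xy_re, hσ]
      linarith
    · rw [xy_im, abs_of_nonneg hy0]
      linarith
  obtain ⟨κ1, hκ1, δ1, hδ1, hs1⟩ := side0 hopen hqc (a := R / 4) (h := h)
    (v := V) (hsideU _ habs) (by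
      intro y hy0 hy1
      rw [hV]
      have := (hS.side y hy0 (by rw [← hh]; exact hy1)).1
      simpa using this)
  obtain ⟨κ2, hκ2, δ2, hδ2, hs2⟩ := side0 hopen hqc (a := -(R / 4)) (h := h)
    (v := V) (hsideU _ (by rw [abs_neg, habs])) (by
      intro y hy0 hy1
      rw [hV]
      have := (hS.side y hy0 (by rw [← hh]; exact hy1)).2
      simpa using this)
  obtain ⟨κ, hκ⟩ : ∃ κ : ℝ, κ = min (min κ1 κ2) (min h (c / 2 * δ ^ 2)) := ⟨_, rfl⟩
  have hκ0 : 0 < κ := by
    rw [hκ]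
    exact lt_min (lt_min hκ1 hκ2) (lt_min hh0 (by positivity))
  have hκa : κ ≤ κ1 := by rw [hκ]; exact (min_le_left _ _).trans (min_le_left _ _)
  have hκb : κ ≤ κ2 := by rw [hκ]; exact (min_le_left _ _).trans (min_le_right _ _)
  have hκc : κ ≤ h := by rw [hκ]; exact (min_le_right _ _).trans (min_le_left _ _)
  have hκd : κ ≤ c / 2 * δ ^ 2 := by rw [hκ]; exact (min_le_right _ _).trans (min_le_right _ _)
  refine ⟨κ / 2, by positivity, ?_⟩
  rw [← hV, ← hh]
  rw [← hV, ← hh, ← hr] at hline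
  rw [← hr] at hδR
  obtain ⟨η, hη⟩ : ∃ η : ℝ, η = min (min δ1 δ2) (min (R / 12) (R / 4 - |r| - δ)) := ⟨_, rfl⟩
  have hη0 : 0 < η := by
    rw [hη]
    exact lt_min (lt_min hδ1 hδ2) (lt_min (by positivity) (by linarith))
  have hηa : η ≤ δ1 := by rw [hη]; exact (min_le_left _ _).trans (min_le_left _ _)
  have hηb : η ≤ δ2 := by rw [hη]; exact (min_le_left _ _).trans (min_le_right _ _)
  have hηc : η ≤ R / 12 := by rw [hη]; exact (min_le_right _ _).trans (min_le_left _ _)
  have hηd : η ≤ R / 4 - |r| - δ := by rw [hη]; exact (min_le_right _ _).trans (min_le_right _ _)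
  have hexp : ∀ᶠ N : ℕ in atTop, Real.exp (-(N * h)) ≤ 1 / 2 := by
    have h1 : Tendsto (fun N : ℕ => Real.exp (-(h * (N : ℝ)))) atTop (𝓝 0) := by
      rw [Real.tendsto_exp_comp_nhds_zero]
      exact tendsto_neg_atTop_atBot.comp
        (Tendsto.const_mul_atTop hh0 tendsto_natCast_atTop_atTop)
    filter_upwards [h1.eventually_le_const (show (0 : ℝ) < 1 / 2 by norm_num)] with N hN
    rw [mul_comm]
    exact hN
  filter_upwards [hU, rN_ev hR hη0, hexp, eventually_ge_atTop 1,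
    Pool.Agent.W588.HT.poly_le_exp (40 * C₀ * Real.exp h) (κ := κ / 2) (by positivity)]
    with N h1 h2 h3 h4 h5
  have hN' : (0 : ℝ) ≤ N := Nat.cast_nonneg N
  have h2' := abs_lt.1 h2
  obtain ⟨ρ, hρ⟩ : ∃ ρ : ℝ, ρ = rN R N := ⟨_, rfl⟩
  rw [← hρ] at h2 h2'
  have hρ0 : 0 ≤ ρ := by linarith [h2'.1]
  have hρ3 : ρ ≤ R / 3 := by linarith [h2'.2]
  have hrl := abs_le.1 (le_refl |r|)
  have hB1 : -ρ ≤ r - δ := by linarith [h2'.1]
  have hB2 : r + δ ≤ ρ := by linarith [h2'.1]
  have hE : ∀ w ∈ Rc R R, ‖eI m X N w‖ ≤ C₀ * Real.exp (N * (qq (2 * m) G w).re) :=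
    fun w hw => eI_norm (h1 w hw)
  -- the vertical side
  have hb : ∀ σ : ℝ, (σ = ρ ∨ σ = -ρ) → ∀ y : ℝ, 0 ≤ y → y ≤ h →
      ‖wE N m (σ + y * Complex.I) * X N (σ + y * Complex.I) * kN N (σ + y * Complex.I)‖ ≤
        Real.exp h * (C₀ * Real.exp (N * (V - κ))) := by
    intro σ hσ y hy0 hy1
    have hσ' : |σ| = ρ := by
      rcases hσ with h | h
      · rw [h, abs_of_nonneg hρ0]
      · rw [h, abs_neg, abs_of_nonneg hρ0]
    have hin : (σ : ℂ) + y * Complex.I ∈ Rc R R := by
      refine ⟨?_, ?_⟩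
      · rw [xy_re, hσ']
        linarith
      · rw [xy_im, abs_of_nonneg hy0]
        linarith
    have hqle : (qq (2 * m) G (σ + y * Complex.I)).re ≤ V - κ := by
      rcases hσ with h | h
      · rw [h]
        exact ((hs1 ρ (by linarith) y hy0 hy1).2).trans (by linarith)
      · rw [h]
        refine ((hs2 (-ρ) ?_ y hy0 hy1).2).trans (by linarith)
        have : -ρ - -(R / 4) = -(ρ - R / 4) := by ring
        rw [this, abs_neg]
        linarith
    rw [FkN, norm_mul]
    apply mul_le_mul (pN_side h4 (by rw [← hρ]; exact hσ) hy0 hy1) _ (norm_nonneg _)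
      (Real.exp_pos _).le
    refine (hE _ hin).trans (mul_le_mul_of_nonneg_left ?_ hC₀)
    exact Real.exp_le_exp.2 (mul_le_mul_of_nonneg_left hqle hN')
  have hFo : ∀ w, wE N m (-w) * X N (-w) * kN N (-w) = -(wE N m w * X N w * kN N w) := by
    intro w
    rw [wE_odd, hXe, kN_neg]
    ring
  have hv : ‖2 * Complex.I * ∫ y in (-h)..h, wE N m (ρ + y * Complex.I) *
      X N (ρ + y * Complex.I) * kN N (ρ + y * Complex.I)‖ ≤
      Real.exp h * (C₀ * Real.exp (N * (V - κ))) := by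
    have h6 : ∀ y ∈ Set.uIoc (-h) h, ‖wE N m (ρ + y * Complex.I) *
        X N (ρ + y * Complex.I) * kN N (ρ + y * Complex.I)‖ ≤
        Real.exp h * (C₀ * Real.exp (N * (V - κ))) := by
      intro y hy
      rw [Set.uIoc_of_le (by linarith)] at hy
      rcases le_total 0 y with h0 | h0
      · exact hb ρ (Or.inl rfl) y h0 hy.2
      · have h6 := hb (-ρ) (Or.inr rfl) (-y) (by linarith) (by linarith [hy.1])
        have e3 : (((-ρ : ℝ) : ℂ) + (-y : ℝ) * Complex.I) = -(ρ + y * Complex.I) := by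
          push_cast
          ring
        rw [e3, hFo, norm_neg] at h6
        exact h6
    have h7 := intervalIntegral.norm_integral_le_of_norm_le_const h6
    have h8 : |h - -h| = 2 * h := by
      rw [abs_of_pos (by linarith)]
      ring
    rw [h8] at h7
    rw [norm_mul, norm_mul, Complex.norm_ofNat, Complex.norm_I, mul_one]
    have h9 : 0 ≤ Real.exp h * (C₀ * Real.exp (N * (V - κ))) := by positivity
    have h10 := mul_le_mul_of_nonneg_left (show 4 * h ≤ 1 by linarith) h9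
    linarith
  -- the horizontal side
  have hinl : ∀ x : ℝ, |x| ≤ ρ → (x : ℂ) + h * Complex.I ∈ Rc R R := by
    intro x hx
    refine ⟨?_, ?_⟩
    · rw [xy_re]
      linarith
    · rw [xy_im, abs_of_pos hh0]
      linarith
  have hql : ∀ x : ℝ, |x| ≤ ρ → (qq (2 * m) G (x + h * Complex.I)).re ≤
      V - c / 2 * (x - r) ^ 2 := fun x hx => hline x (hx.trans hρ3)
  have hpc : ContinuousOn (fun x : ℝ => pN N (x + h * Complex.I)) (Set.uIcc (-ρ) ρ) := by
    intro x _
    apply ContinuousAt.continuousWithinAt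
    have h6 : ContinuousAt (pN N) (x + h * Complex.I) := by
      have := pN_diff (N := N) (by omega) (U := {w : ℂ | 0 < w.im}) (fun w hw => hw)
      exact (this.differentiableAt ((isOpen_lt continuous_const Complex.continuous_im).mem_nhds
        (show (0 : ℝ) < ((x : ℂ) + h * Complex.I).im by rw [xy_im]; exact hh0))).continuousAt
    exact ContinuousAt.comp (f := fun x : ℝ => (x : ℂ) + h * Complex.I) h6 (by fun_prop)
  have hec : Continuous (fun x : ℝ => eI m X N (x + h * Complex.I)) :=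
    (eI_cont m hX N).comp (by fun_prop)
  obtain ⟨g, hg⟩ : ∃ g : ℝ → ℂ, g = fun x : ℝ => 2 * Complex.sin (x + h * Complex.I) *
    eI m X N (x + h * Complex.I) := ⟨_, rfl⟩
  have hgc : Continuous g := by
    rw [hg]
    exact (by fun_prop : Continuous fun x : ℝ => 2 * Complex.sin ((x : ℂ) + h * Complex.I)).mul hec
  have hsn : ∀ x : ℝ, ‖Complex.sin (x + h * Complex.I)‖ ≤ Real.exp h := by
    intro x
    refine (Pool.Agent.W85.HT.norm_sin_le _).trans (Real.exp_le_exp.2 ?_)
    rw [xy_im, abs_of_pos hh0]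
  have hD : ‖2 * (∫ x in (-ρ)..ρ, wE N m (x + h * Complex.I) *
          X N (x + h * Complex.I) * kN N (x + h * Complex.I)) - ∫ x in (-ρ)..ρ, g x‖ ≤
      20 * (Real.exp h * (C₀ * Real.exp (N * (V - κ)))) := by
    have e1 : 2 * (∫ x in (-ρ)..ρ, wE N m (x + h * Complex.I) *
          X N (x + h * Complex.I) * kN N (x + h * Complex.I)) =
        ∫ x in (-ρ)..ρ, 2 * (pN N (x + h * Complex.I) * eI m X N (x + h * Complex.I)) := by
      rw [← intervalIntegral.integral_const_mul]
      apply intervalIntegral.integral_congr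
      intro x _
      show 2 * (wE N m (x + h * Complex.I) * X N (x + h * Complex.I) * kN N (x + h * Complex.I)) = _
      rw [FkN]
    have hint1 : IntervalIntegrable (fun x : ℝ => 2 * (pN N (x + h * Complex.I) *
        eI m X N (x + h * Complex.I))) volume (-ρ) ρ := by
      apply ContinuousOn.intervalIntegrable
      exact ContinuousOn.mul continuousOn_const (hpc.mul hec.continuousOn)
    rw [e1, ← intervalIntegral.integral_sub hint1 (hgc.intervalIntegrable _ _)]
    have h6 : ∀ x ∈ Set.uIoc (-ρ) ρ, ‖2 * (pN N (x + h * Complex.I) * eI m X N (x + h * Complex.I)) -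
        g x‖ ≤ 20 * (Real.exp h * (C₀ * Real.exp (N * (V - κ)))) := by
      intro x hx
      rw [Set.uIoc_of_le (by linarith), Set.mem_Ioc] at hx
      have hx' : |x| ≤ ρ := abs_le.2 ⟨hx.1.le, hx.2⟩
      have e2 : 2 * (pN N (x + h * Complex.I) * eI m X N (x + h * Complex.I)) - g x =
          2 * ((pN N (x + h * Complex.I) - Complex.sin (x + h * Complex.I)) *
            eI m X N (x + h * Complex.I)) := by
        rw [hg]
        ring
      rw [e2, norm_mul, norm_mul, Complex.norm_ofNat]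
      have h7 := pN_sub (N := N) (w := (x : ℂ) + h * Complex.I) (xy_im x h) hh0 h3
      have h8 := hE _ (hinl x hx')
      have h9 : Real.exp (N * (qq (2 * m) G (x + h * Complex.I)).re) ≤ Real.exp (N * V) := by
        apply Real.exp_le_exp.2
        apply mul_le_mul_of_nonneg_left _ hN'
        have := hql x hx'
        have : 0 ≤ c / 2 * (x - r) ^ 2 := by positivity
        linarith
      have h10 : Real.exp (-(N * h)) * Real.exp (N * V) ≤ Real.exp (N * (V - κ)) := by
        rw [← Real.exp_add]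
        apply Real.exp_le_exp.2
        have := mul_le_mul_of_nonneg_left hκc hN'
        linarith
      calc 2 * (‖pN N (x + h * Complex.I) - Complex.sin (x + h * Complex.I)‖ *
            ‖eI m X N (x + h * Complex.I)‖) ≤
            2 * ((Real.exp h * (10 * Real.exp (-(N * h)))) * (C₀ * Real.exp (N * V))) := by
            apply mul_le_mul_of_nonneg_left _ (by norm_num)
            exact mul_le_mul h7 (h8.trans (mul_le_mul_of_nonneg_left h9 hC₀)) (norm_nonneg _)
              (by positivity)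
        _ = 20 * (Real.exp h * (C₀ * (Real.exp (-(N * h)) * Real.exp (N * V)))) := by ring
        _ ≤ 20 * (Real.exp h * (C₀ * Real.exp (N * (V - κ)))) := by gcongr
    have h7 := intervalIntegral.norm_integral_le_of_norm_le_const h6
    refine h7.trans ?_
    have h8 : |ρ - -ρ| ≤ 1 := by
      rw [abs_of_nonneg (by linarith)]
      linarith
    have h9 : 0 ≤ 20 * (Real.exp h * (C₀ * Real.exp (N * (V - κ)))) := by positivity
    calc _ ≤ 20 * (Real.exp h * (C₀ * Real.exp (N * (V - κ)))) * 1 :=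
          mul_le_mul_of_nonneg_left h8 h9
      _ = _ := by ring
  have hO : ∀ u v : ℝ, -ρ ≤ u → u ≤ v → v ≤ ρ → (∀ x : ℝ, u ≤ x → x ≤ v → δ ≤ |x - r|) →
      ‖∫ x in u..v, g x‖ ≤ 2 * (Real.exp h * (C₀ * Real.exp (N * (V - κ)))) := by
    intro u v hu huv hvρ hx
    have h6 : ∀ x ∈ Set.uIoc u v, ‖g x‖ ≤ 2 * (Real.exp h * (C₀ * Real.exp (N * (V - κ)))) := by
      intro x hx'
      rw [Set.uIoc_of_le huv, Set.mem_Ioc] at hx'
      have hx1 : |x| ≤ ρ := abs_le.2 ⟨by linarith [hx'.1], by linarith [hx'.2]⟩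
      have h8 := hE _ (hinl x hx1)
      have h9 : Real.exp (N * (qq (2 * m) G (x + h * Complex.I)).re) ≤ Real.exp (N * (V - κ)) := by
        apply Real.exp_le_exp.2
        apply mul_le_mul_of_nonneg_left _ hN'
        have h10 := hql x hx1
        have h11 := hx x hx'.1.le hx'.2
        have h12 : δ ^ 2 ≤ (x - r) ^ 2 := by
          rw [← sq_abs (x - r)]
          exact pow_le_pow_left₀ hδ.le h11 2
        have h13 : c / 2 * δ ^ 2 ≤ c / 2 * (x - r) ^ 2 :=
          mul_le_mul_of_nonneg_left h12 (by positivity)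
        linarith
      rw [hg]
      simp only
      rw [norm_mul, norm_mul, Complex.norm_ofNat]
      calc 2 * ‖Complex.sin (x + h * Complex.I)‖ * ‖eI m X N (x + h * Complex.I)‖ ≤
            2 * Real.exp h * (C₀ * Real.exp (N * (V - κ))) := by
            apply mul_le_mul (mul_le_mul_of_nonneg_left (hsn x) (by norm_num))
              (h8.trans (mul_le_mul_of_nonneg_left h9 hC₀)) (norm_nonneg _) (by positivity)
        _ = _ := by ring
    have h7 := intervalIntegral.norm_integral_le_of_norm_le_const h6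
    refine h7.trans ?_
    have h8 : |v - u| ≤ 1 := by
      rw [abs_of_nonneg (by linarith)]
      linarith
    have h9 : 0 ≤ 2 * (Real.exp h * (C₀ * Real.exp (N * (V - κ)))) := by positivity
    calc _ ≤ 2 * (Real.exp h * (C₀ * Real.exp (N * (V - κ)))) * 1 :=
          mul_le_mul_of_nonneg_left h8 h9
      _ = _ := by ring
  have hO1 := hO (-ρ) (r - δ) le_rfl hB1 (by linarith) (by
    intro x _ hx
    rw [abs_sub_comm]
    exact le_trans (by linarith) (le_abs_self _))
  have hO2 := hO (r + δ) ρ (by linarith) hB2 le_rfl (by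
    intro x hx _
    exact le_trans (by linarith) (le_abs_self _))
  have hsplit : (∫ x in (-ρ)..ρ, g x) =
      (∫ x in (-ρ)..(r - δ), g x) + (∫ x in (r - δ)..(r + δ), g x) + ∫ x in (r + δ)..ρ, g x := by
    rw [intervalIntegral.integral_add_adjacent_intervals (hgc.intervalIntegrable _ _)
      (hgc.intervalIntegrable _ _), intervalIntegral.integral_add_adjacent_intervals
      (hgc.intervalIntegrable _ _) (hgc.intervalIntegrable _ _)]
  have hsub : (∫ x in (-δ)..δ, 2 * Complex.sin (z + x) * eI m X N (z + x)) =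
      ∫ x in (r - δ)..(r + δ), g x := by
    have h6 := intervalIntegral.integral_comp_add_left (a := -δ) (b := δ) g r
    rw [sub_eq_add_neg, ← h6]
    apply intervalIntegral.integral_congr
    intro x _
    show 2 * Complex.sin (z + x) * eI m X N (z + x) = g (r + x)
    have e : (((r + x : ℝ) : ℂ) + h * Complex.I) = z + x := by
      rw [hr, hh]
      push_cast
      conv_rhs => rw [← Complex.re_add_im z]
      ring
    rw [hg]
    simp only
    rw [e]
  rw [hsub, ← hρ]
  have e9 : 2 * (∫ x in (-ρ)..ρ, wE N m (x + h * Complex.I) *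
          X N (x + h * Complex.I) * kN N (x + h * Complex.I)) -
        2 * Complex.I * (∫ y in (-h)..h, wE N m (ρ + y * Complex.I) *
          X N (ρ + y * Complex.I) * kN N (ρ + y * Complex.I)) - ∫ x in (r - δ)..(r + δ), g x =
      ((2 * (∫ x in (-ρ)..ρ, wE N m (x + h * Complex.I) *
          X N (x + h * Complex.I) * kN N (x + h * Complex.I)) - ∫ x in (-ρ)..ρ, g x) +
        ((∫ x in (-ρ)..(r - δ), g x) + ∫ x in (r + δ)..ρ, g x)) -
        2 * Complex.I * (∫ y in (-h)..h, wE N m (ρ + y * Complex.I) *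
          X N (ρ + y * Complex.I) * kN N (ρ + y * Complex.I)) := by
    rw [hsplit]
    ring
  rw [e9]
  refine (norm_sub_le _ _).trans ?_
  have h6 := norm_add_le (2 * (∫ x in (-ρ)..ρ, wE N m (x + h * Complex.I) *
          X N (x + h * Complex.I) * kN N (x + h * Complex.I)) - ∫ x in (-ρ)..ρ, g x)
        ((∫ x in (-ρ)..(r - δ), g x) + ∫ x in (r + δ)..ρ, g x)
  have h7 := norm_add_le (∫ x in (-ρ)..(r - δ), g x) (∫ x in (r + δ)..ρ, g x)
  have h8 : 25 * (Real.exp h * (C₀ * Real.exp (N * (V - κ)))) ≤ Real.exp (N * (V - κ / 2)) := by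
    have e1 : Real.exp (N * (V - κ / 2)) = Real.exp (N * (κ / 2)) * Real.exp (N * (V - κ)) := by
      rw [← Real.exp_add]
      congr 1
      ring
    rw [e1]
    have h9 : 25 * (Real.exp h * C₀) ≤ Real.exp (N * (κ / 2)) := by
      refine le_trans ?_ h5
      have k0 : 0 ≤ Real.exp h * C₀ := by positivity
      have k1 : 0 ≤ (Real.exp h * C₀) * N := mul_nonneg k0 hN'
      have k2 : 40 * C₀ * Real.exp h * (N + 1) =
          40 * ((Real.exp h * C₀) * N) + 40 * (Real.exp h * C₀) := by ring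
      rw [k2]
      linarith
    calc 25 * (Real.exp h * (C₀ * Real.exp (N * (V - κ)))) =
          25 * (Real.exp h * C₀) * Real.exp (N * (V - κ)) := by ring
      _ ≤ _ := mul_le_mul_of_nonneg_right h9 (Real.exp_pos _).le
  linarith

/-- PH-CHIX -/
theorem chix : S_CHIX := by
  intro R c B p₀ hR hR1 hc _
  obtain ⟨M, hM, h⟩ := crit_exists B hR hR1 hc
  refine ⟨16, M, by norm_num, hM, ?_⟩
  intro X G A hX hXe hG hev hb hGX m hm
  obtain ⟨z, h1, h2, h3, h4, h5, h6, h7⟩ := h G hG hev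
    (fun z hz => ⟨(hb z hz).1, (hb z hz).2.1⟩) m hm
  have e : qq (2 * m) G z = Complex.I * m * z ^ 2 / (2 * π) + Complex.I * z + G z := by
    unfold qq
    push_cast
    ring
  refine ⟨z, h1, h2, h3, h4, ?_, ?_⟩
  · rw [← e]
    exact h6
  rw [← e]
  have hpi := Real.pi_pos
  have hopen : IsOpen (Rc R R) := Pool.Agent.W293.HT.isOpen_Rc _ _
  have h0in : (0 : ℂ) ∈ Rc R R := ⟨by simpa using hR, by simpa using hR⟩
  have hzin : z ∈ Rc R R := Pool.Agent.W293.HT.Rc_mono (by linarith) (by linarith) h1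
  obtain ⟨C₀, hC₀⟩ := hGX.ux 0
  have hU : ∀ᶠ N : ℕ in atTop, ∀ w ∈ Rc R R, ‖Complex.exp (-(N * G w)) * X N w‖ ≤ C₀ := by
    filter_upwards [hC₀] with N hN w hw
    have := hN w hw
    simpa using this
  have hC0 : 0 ≤ C₀ := by
    obtain ⟨N, hN⟩ := hU.exists
    exact (norm_nonneg _).trans (hN 0 h0in)
  obtain ⟨δ, hδd⟩ : ∃ δ : ℝ, δ = R / 4 - |z.re| := ⟨_, rfl⟩
  have hδ : 0 < δ := by
    rw [hδd]
    have : |z.re| < R / 4 := h1.1
    linarith
  have hδR : δ ≤ R / 4 := by
    rw [hδd]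
    have := abs_nonneg z.re
    linarith
  obtain ⟨W, hW⟩ : ∃ W : ℕ → ℂ, W = fun N =>
      2 * (∫ x in (-rN R N)..(rN R N), wE N m (x + z.im * Complex.I) *
          X N (x + z.im * Complex.I) * kN N (x + z.im * Complex.I)) -
        2 * Complex.I * (∫ y in (-z.im)..z.im, wE N m (rN R N + y * Complex.I) *
          X N (rN R N + y * Complex.I) * kN N (rN R N + y * Complex.I)) := ⟨_, rfl⟩
  have hgx : GX R R 0 X G A := by
    refine ⟨?_, hGX.an, hGX.nz⟩
    have := hGX.ux
    simpa using this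
  have hder2 : ∀ w ∈ Rc R R, deriv (deriv (qq (2 * m) G)) w =
      Complex.I * (2 * m : ℤ) / (2 * π) + deriv (deriv G) w := by
    intro w hw
    have k1 : deriv (qq (2 * m) G) =ᶠ[𝓝 w]
        fun w => Complex.I * (2 * m : ℤ) * w / (2 * π) + Complex.I + deriv G w := by
      filter_upwards [hopen.mem_nhds hw] with u hu
      exact (Pool.Agent.W293.HT.hasDerivAt_qq (2 * m)
        (hG.differentiableAt (hopen.mem_nhds hu))).deriv
    rw [k1.deriv_eq]
    exact (hasDerivAt_dqq hG (2 * m) hw).deriv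
  have key := Pool.Agent.W21.AX.locx (Pool.Agent.W762.AX.lx Pool.Agent.W303.AX.uxbd)
    Pool.Agent.W303.AX.uxmul R R δ c 0 (2 * m) Unit Set.univ X G A (fun _ _ _ => 1)
    (fun n _ => if n = 0 then 1 else 0) (fun _ _ => 0) (fun _ => z) (fun _ => qq (2 * m) G z)
    (fun N _ => (-1) ^ N * W N) hδ hc hgx hX hG
    (by
      intro _ _ u hu
      rw [mem_ball_zero_iff] at hu
      have k1 := Complex.abs_re_le_norm u
      have k2 := Complex.abs_im_le_norm u
      have k3 : |z.re| < R / 4 := h1.1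
      have k4 : |z.im| < R / 4 := h1.2
      refine ⟨?_, ?_⟩
      · show |(z + u).re| < R
        rw [Complex.add_re]
        have := abs_add_le z.re u.re
        linarith
      · show |(z + u).im| < R
        rw [Complex.add_im]
        have := abs_add_le z.im u.im
        linarith)
    ⟨B, fun w hw => ⟨(hb w hw).1, fun _ _ => by
      rw [norm_zero]
      exact (norm_nonneg _).trans (hb w hw).1⟩⟩
    (fun _ _ _ => continuousOn_const) (fun _ _ => differentiableOn_const _)
    (Pool.Agent.W21.AX.ux_cst (fun _ => (1 : ℂ)) _ 1 (fun _ _ => by simp))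
    (fun _ _ _ => differentiableOn_const _) (fun _ _ => by simp)
    (by
      intro _ _
      have k0 : (fun w => G w + (0 : ℂ)) = G := by
        funext w
        rw [add_zero]
      simp only [k0]
      refine ⟨h5.sn, trivial, h5.crit, ?_⟩
      rw [hder2 z hzin, Complex.add_re, Pool.Agent.W293.HT.re_I_a, zero_add]
      exact (hb z hzin).2.1)
    (by
      intro δ' hδ' hδδ
      obtain ⟨κ', hκ', hκ⟩ := loc hR hR1 hX hXe hG hC0 hU m h1 h2 h5 hc h7 hδ' (by
        rw [hδd] at hδδ hδ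
        linarith)
      refine ⟨κ', hκ', ?_⟩
      filter_upwards [hκ] with N hN _ _
      have k1 : (∫ x in (-δ')..δ', ig (2 * m) N (z + x) *
          (X N (z + x) * (Complex.exp (N * 0) * 1))) =
          (-1) ^ N * ∫ x in (-δ')..δ', 2 * Complex.sin (z + x) * eI m X N (z + x) := by
        rw [← intervalIntegral.integral_const_mul]
        apply intervalIntegral.integral_congr
        intro x _
        simp only [ig, eI, mul_zero, Complex.exp_zero, mul_one]
        ring
      rw [k1, ← mul_sub, norm_mul, norm_pow, norm_neg, norm_one, one_pow, one_mul, hW]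
      exact hN)
  obtain ⟨Bc, hBc, hB0⟩ := key
  refine ⟨fun k => -(Complex.I / (2 * π)) * Bc k (), ?_, ?_⟩
  · refine mul_ne_zero (neg_ne_zero.2 (div_ne_zero Complex.I_ne_zero ?_)) (hB0 () (mem_univ _))
    exact_mod_cast (by positivity : (2 * π : ℝ) ≠ 0)
  intro K
  obtain ⟨C, hC⟩ := hBc K
  refine ⟨1 / (2 * π) * C, ?_⟩
  filter_upwards [hC, eventually_ge_atTop 1] with N hN hN1
  have hN0 : (0 : ℝ) < N := by exact_mod_cast hN1
  have hNc : (N : ℂ) ≠ 0 := by exact_mod_cast hN0.ne'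
  have hb' := hN () (mem_univ _)
  have hFd : Differentiable ℂ (fun χ => wE N m χ * X N χ) := (wE_diff N m).mul (hX N)
  have hFo : ∀ w, (fun χ => wE N m χ * X N χ) (-w) = -(fun χ => wE N m χ * X N χ) w := by
    intro w
    simp only
    rw [wE_odd, hXe, neg_mul]
  have hs := sum_deriv hFd hFo hN1 ⌊R / 4 * N / (2 * π)⌋₊ h2
  have hs2 : nearS R N (deriv fun χ => wE N m χ * X N χ) =
      -(Complex.I / (2 * π)) * (N * (N * W N)) := by
    have k1 : nearS R N (deriv fun χ => wE N m χ * X N χ) =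
        ∑ p ∈ Finset.Icc (-(⌊R / 4 * N / (2 * π)⌋₊ : ℤ)) ⌊R / 4 * N / (2 * π)⌋₊,
          deriv (fun χ => wE N m χ * X N χ) (2 * π * p / N) := rfl
    rw [k1, hs, hW]
    unfold rN
    ring
  have hsq : ((Real.sqrt N : ℝ) : ℂ) * ((Real.sqrt N : ℝ) : ℂ) = N := by
    rw [← Complex.ofReal_mul, Real.mul_self_sqrt hN0.le, Complex.ofReal_natCast]
  have hsq0 : ((Real.sqrt N : ℝ) : ℂ) ≠ 0 := by
    exact_mod_cast (Real.sqrt_pos.2 hN0).ne'
  have hsg : ((-1 : ℂ) ^ N) * (-1) ^ N = 1 := by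
    rw [← mul_pow]
    norm_num
  have hen := Complex.exp_ne_zero (N * qq (2 * m) G z)
  have hee : Complex.exp (-(N * qq (2 * m) G z)) = (Complex.exp (N * qq (2 * m) G z))⁻¹ :=
    Complex.exp_neg _
  have hkey : nearS R N (deriv fun χ => wE N m χ * X N χ) /
      (((Real.sqrt N) ^ 3 : ℝ) * Complex.exp (N * qq (2 * m) G z)) =
      -(Complex.I / (2 * π)) * ((N : ℂ) ^ (2 * 0) * (Real.sqrt N : ℂ) * (-1) ^ (N * (0 + 1)) *
      Complex.exp (-(N * qq (2 * m) G z)) * ((-1) ^ N * W N)) := by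
    rw [hs2, hee]
    have k1 : (((Real.sqrt N) ^ 3 : ℝ) : ℂ) = ((Real.sqrt N : ℝ) : ℂ) ^ 3 := by push_cast; rfl
    rw [k1, mul_zero, pow_zero, one_mul, zero_add, mul_one]
    generalize Complex.exp (N * qq (2 * m) G z) = E at *
    rw [div_eq_iff (mul_ne_zero (pow_ne_zero _ hsq0) hen)]
    have k2 : E⁻¹ * E = 1 := inv_mul_cancel₀ hen
    generalize (Real.sqrt N : ℂ) = s at *
    have k3 : s * s * (s * s) = N * N := by rw [hsq]
    linear_combination (Complex.I / (2 * π) * W N) * k3 +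
      (Complex.I / (2 * π) * W N * s ^ 4 * ((-1) ^ N * (-1) ^ N)) * k2 +
      (Complex.I / (2 * π) * W N * s ^ 4) * hsg
  rw [hkey]
  have e3 : ∑ k ∈ Finset.range K, -(Complex.I / (2 * π)) * Bc k () / (N : ℂ) ^ k =
      -(Complex.I / (2 * π)) * ∑ k ∈ Finset.range K, Bc k () / (N : ℂ) ^ k := by
    rw [Finset.mul_sum]
    exact Finset.sum_congr rfl fun k _ => mul_div_assoc _ _ _
  rw [e3, ← mul_sub, norm_mul]
  have e4 : ‖-(Complex.I / (2 * π))‖ = 1 / (2 * π) := by
    rw [norm_neg, norm_div, Complex.norm_I, norm_mul, Complex.norm_ofNat, Complex.norm_real,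
      Real.norm_of_nonneg hpi.le]
  rw [e4, mul_div_assoc]
  exact mul_le_mul_of_nonneg_left hb' (by positivity)

end Pool.Agent.Y497.PH
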